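import Mathlib
import Pool.Agent.H67.IC.Graph

/-!
# Every (4, 8)-biregular bipartite graph has a consecutive colouring with at most 10 colours
-/

set_option autoImplicit false

namespace Pool.Agent.Results.MP_ea3f3f_co.FourEight

/-- Every finite bipartite graph with all degrees 4 on one side and 8 on the other has a proper edge
colouring with colours in `{1, …, 10}` in which the colours at each vertex form an interval. -/
theorem result :
    ∀ (V : Type) [Fintype V] (G : SimpleGraph V) (X : Set V),
      (∀ u v : V, G.Adj u v → (u ∈ X ↔ v ∉ X)) →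
      (∀ v : V, v ∈ X → (G.neighborSet v).ncard = 4) →
      (∀ v : V, v ∉ X → (G.neighborSet v).ncard = 8) →
      ∃ c : V → V → ℕ,
        (∀ v w : V, G.Adj v w → c v w = c w v) ∧
        (∀ v w : V, G.Adj v w → 0 < c v w ∧ c v w ≤ 10) ∧
        (∀ v w w' : V, G.Adj v w → G.Adj v w' →
            c v w = c v w' → w = w') ∧
        (∀ v w w' : V, ∀ k : ℕ, G.Adj v w → G.Adj v w' →
            c v w ≤ k → k ≤ c v w' →
            ∃ u : V, G.Adj v u ∧ c v u = k) := by
  intro V _ G X hX h4 h8
  exact H67.IC.two_to_one V G X 4 (by norm_num) hX h4 h8 (Or.inl le_rfl)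

end Pool.Agent.Results.MP_ea3f3f_co.FourEight
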