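import Pool.Agent.H70.TF.Fin

/-!
# Every (3,4)-biregular bipartite graph has a consecutive colouring
-/

set_option autoImplicit false

namespace Pool.Agent.Results.MP_ea3f3f_co.ThreeFour

open Pool.Agent.H70.TF

/-- Every finite bipartite graph with all degrees 3 on `X` and all degrees 4 off `X` has a consecutive colouring, with colours at
most 6 if the graph has no bridge. -/
theorem result :
    ∀ (V : Type) [Fintype V] (G : SimpleGraph V) (X : Set V),
      (∀ u v : V, G.Adj u v → (u ∈ X ↔ v ∉ X)) →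
      (∀ v : V, v ∈ X → (G.neighborSet v).ncard = 3) →
      (∀ v : V, v ∉ X → (G.neighborSet v).ncard = 4) →
      ∃ c : V → V → ℕ,
        (∀ v w : V, G.Adj v w → c v w = c w v) ∧
        (∀ v w : V, G.Adj v w → 0 < c v w) ∧
        (∀ v w w' : V, G.Adj v w → G.Adj v w' → c v w = c v w' → w = w') ∧
        (∀ v w w' : V, ∀ k : ℕ, G.Adj v w → G.Adj v w' → c v w ≤ k → k ≤ c v w' →
          ∃ u : V, G.Adj v u ∧ c v u = k) ∧
        ((∀ e ∈ G.edgeSet, ¬ G.IsBridge e) → ∀ v w : V, G.Adj v w → c v w ≤ 6) := by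
  intro V _ G X h1 h2 h3
  have hb : Bip G X := Fin_bip h1 (fun v hv => (h2 v hv).le) (fun v hv => (h3 v hv).le)
  by_cases hbr : ∀ e ∈ G.edgeSet, ¬ G.IsBridge e
  · obtain ⟨κ, hg, hk⟩ := good_six G X hb (Fin_bridge hbr)
    obtain ⟨g1, g2, g3, g4⟩ := Fin_conv h2 h3 hg (fun v w hvw => (hk v w hvw).1)
    refine ⟨fun v w => (κ v w).toNat, g1, g2, g3, g4, fun _ v w hvw => ?_⟩
    have := (hk v w hvw).2
    show (κ v w).toNat ≤ 6
    omega
  · obtain ⟨κ₀, hg₀⟩ := good_all G X hb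
    obtain ⟨κ, hg, hk⟩ := Fin_shift hg₀
    obtain ⟨g1, g2, g3, g4⟩ := Fin_conv h2 h3 hg hk
    exact ⟨fun v w => (κ v w).toNat, g1, g2, g3, g4, fun h => absurd h hbr⟩

end Pool.Agent.Results.MP_ea3f3f_co.ThreeFour
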