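import Mathlib
import Pool.Agent.H67.IC.Graph

/-!
# A criterion for consecutive colourings of (a, 2a)-biregular bipartite graphs
-/

set_option autoImplicit false

namespace Pool.Agent.Results.MP_ea3f3f_co.TwoToOneCriterion

/-- Let `a ≥ 2` and let `G` be a finite bipartite graph with all degrees `a` on `X` and `2 a` off `X`.
Suppose that there are a set `L` of vertices and a subgraph `H` of `G` in which each vertex of `X` has
degree `a - 2` and each vertex off `X` has exactly `a - 2` neighbours in `L` and exactly `a - 2`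
neighbours outside `L`. Then `G` has a consecutive colouring with colours in `{1, …, 2 a + 2}`. -/
theorem result :
    ∀ (V : Type) [Fintype V] (G : SimpleGraph V) (X : Set V) (a : ℕ), 2 ≤ a →
      (∀ u v : V, G.Adj u v → (u ∈ X ↔ v ∉ X)) →
      (∀ v : V, v ∈ X → (G.neighborSet v).ncard = a) →
      (∀ v : V, v ∉ X → (G.neighborSet v).ncard = 2 * a) →
      (∃ (L : Set V) (H : SimpleGraph V), H ≤ G ∧
        (∀ v ∈ X, (H.neighborSet v).ncard = a - 2) ∧
        ∀ v ∉ X, (H.neighborSet v ∩ L).ncard = a - 2 ∧ (H.neighborSet v \ L).ncard = a - 2) →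
      ∃ c : V → V → ℕ,
        (∀ v w : V, G.Adj v w → c v w = c w v) ∧
        (∀ v w : V, G.Adj v w → 0 < c v w ∧ c v w ≤ 2 * a + 2) ∧
        (∀ v w w' : V, G.Adj v w → G.Adj v w' →
            c v w = c v w' → w = w') ∧
        (∀ v w w' : V, ∀ k : ℕ, G.Adj v w → G.Adj v w' →
            c v w ≤ k → k ≤ c v w' →
            ∃ u : V, G.Adj v u ∧ c v u = k) := by
  intro V _ G X a ha hX h1 h2 hc
  exact H67.IC.two_to_one V G X a ha hX h1 h2 (Or.inr hc)

end Pool.Agent.Results.MP_ea3f3f_co.TwoToOneCriterion
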